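import Pool.Agent.V1148.VG.M

set_option autoImplicit false
set_option linter.deprecated false
set_option linter.unusedVariables false

open scoped commutatorElement

/-!
# The class-`c` part of a centre-by-`𝔘` variety need not be generated by the same rank

A variety of groups is given by its verbal (that is, fully invariant) subgroup in the free group
`F = FreeGroup ℕ` of countably infinite rank.  We show that the answer to the question is
negative, with `c = 4` and `k = 2`.
-/

namespace Pool.Agent.Results.MP_215da1_al.RankTwoFails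

/-- the absolutely free group of countably infinite rank -/
abbrev F : Type := FreeGroup ℕ

/-- `V` is the verbal subgroup of `F` of some variety: it is fully invariant, i.e. mapped into
itself by every endomorphism of `F` -/
def IsVerbal (V : Subgroup F) : Prop := ∀ φ : F →* F, V.map φ ≤ V

/-- `w` is a law of the group `G` -/
def IsLaw (w : F) (G : Type) [Group G] : Prop := ∀ φ : F →* G, φ w = 1

/-- the verbal subgroup `𝔙(G)` of `G`, where `𝔙` is the variety whose set of laws is `V`:
it is generated by all values in `G` of the laws of `𝔙` -/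
def verbal (V : Subgroup F) (G : Type) [Group G] : Subgroup G :=
  Subgroup.closure {g | ∃ v ∈ V, ∃ φ : F →* G, φ v = g}

instance verbal_normal (V : Subgroup F) (G : Type) [Group G] : (verbal V G).Normal := by
  constructor
  intro n hn g
  unfold verbal at hn ⊢
  induction hn using Subgroup.closure_induction with
  | mem x hx =>
    obtain ⟨v, hv, φ, rfl⟩ := hx
    exact Subgroup.subset_closure ⟨v, hv, (MulAut.conj g).toMonoidHom.comp φ, rfl⟩
  | one => simp
  | mul a b _ _ iha ihb =>
    have : g * (a * b) * g⁻¹ = (g * a * g⁻¹) * (g * b * g⁻¹) := by group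
    rw [this]; exact mul_mem iha ihb
  | inv a _ iha =>
    have : g * a⁻¹ * g⁻¹ = (g * a * g⁻¹)⁻¹ := by group
    rw [this]; exact inv_mem iha

/-- the relatively free group `F_k(𝔙)` of rank `k`, where `𝔙` is the variety whose set of laws
is `V` -/
abbrev RelFree (V : Subgroup F) (k : ℕ) : Type :=
  FreeGroup (Fin k) ⧸ verbal V (FreeGroup (Fin k))

/-- the variety `𝔙` whose set of laws is `V` is generated by its free group of rank `k`: the laws
of `F_k(𝔙)` are exactly the laws of `𝔙` -/
def GeneratedByRank (k : ℕ) (V : Subgroup F) : Prop :=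
  ∀ w : F, IsLaw w (RelFree V k) ↔ w ∈ V

open Pool.Agent.V1148.VG

theorem verbal_le {V : Subgroup F} {G : Type} [Group G] {N : Subgroup G}
    (h : ∀ φ : F →* G, ∀ v ∈ V, φ v ∈ N) : verbal V G ≤ N := by
  unfold verbal
  rw [Subgroup.closure_le]
  rintro _ ⟨v, hv, φ, rfl⟩
  exact h φ v hv

theorem verbal_PP : verbal (PP FN) (FF 2) = PP (FF 2) := by
  refine le_antisymm (verbal_le fun φ v hv => PP_mem_map φ hv) ?_
  obtain ⟨r, hr⟩ := sur2
  rw [← PP_map_surj r hr]
  rintro _ ⟨v, hv, rfl⟩
  exact Subgroup.subset_closure ⟨v, hv, r, rfl⟩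

theorem gen_PP : GeneratedByRank 2 (PP FN) := by
  intro w
  constructor
  · intro h
    refine WN w fun φ => ?_
    have h1 := h ((QuotientGroup.mk' (verbal (PP FN) (FF 2))).comp φ)
    have h2 : φ w ∈ verbal (PP FN) (FF 2) := (QuotientGroup.eq_one_iff _).1 h1
    rwa [verbal_PP] at h2
  · intro hw φ
    have h1 := PP_mem_map φ hw
    have h2 : PP (RelFree (PP FN) 2) = ⊥ := by
      rw [← PP_map_surj (QuotientGroup.mk' (verbal (PP FN) (FF 2)))
        (QuotientGroup.mk'_surjective _), Subgroup.map_eq_bot_iff, QuotientGroup.ker_mk',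
        verbal_PP]
    rw [h2, Subgroup.mem_bot] at h1
    exact h1

theorem law_w0 : IsLaw ⁅⁅FreeGroup.of 0, FreeGroup.of 1⁆, ⁅FreeGroup.of 2, FreeGroup.of 3⁆⁆
    (RelFree (gam FN 5 ⊔ PP FN) 2) := by
  intro φ
  set Q := RelFree (gam FN 5 ⊔ PP FN) 2 with hQ
  set q := QuotientGroup.mk' (verbal (gam FN 5 ⊔ PP FN) (FF 2)) with hq
  have hs : Function.Surjective q := QuotientGroup.mk'_surjective _
  have h5 : gam Q 5 = ⊥ := by
    rw [← map_gam_surj q hs, Subgroup.map_eq_bot_iff, hq, QuotientGroup.ker_mk']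
    obtain ⟨r, hr⟩ := sur2
    rw [← map_gam_surj r hr]
    rintro _ ⟨v, hv, rfl⟩
    exact Subgroup.subset_closure ⟨v, Subgroup.mem_sup_left hv, r, rfl⟩
  have hgen : Subgroup.closure ({q (FreeGroup.of 0), q (FreeGroup.of 1)} : Set Q) = ⊤ := by
    have h1 := congrArg (Subgroup.map q) (FreeGroup.closure_range_of (Fin 2))
    rw [MonoidHom.map_closure, Subgroup.map_top_of_surjective _ hs, ← Set.range_comp] at h1
    rw [← h1]
    congr 1
    ext g
    constructor
    · rintro (rfl | rfl)
      · exact ⟨0, rfl⟩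
      · exact ⟨1, rfl⟩
    · rintro ⟨i, rfl⟩
      fin_cases i
      · exact Or.inl rfl
      · exact Or.inr rfl
  have h6 := two_gen hgen
  rw [h5] at h6
  have h7 : φ ⁅⁅FreeGroup.of 0, FreeGroup.of 1⁆, ⁅FreeGroup.of 2, FreeGroup.of 3⁆⁆ ∈ der2 Q := by
    rw [map_commutatorElement]
    exact kap_der2 (map_mem_gam φ (comm_mem_two _ _)) (map_mem_gam φ (comm_mem_two _ _))
  exact h6 h7

/-- **The answer is no.**  There are `c ≥ 1`, `k ≥ 1` and a variety `𝔘 ≤ 𝔑_c` (with verbal
subgroup `U`, so `U` contains the term `γ_{c+1}` of the lower central series) such that the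
variety `[𝔘, 𝔈]` (with verbal subgroup `[U, F]`) is generated by its free group of rank `k`, but
the variety `𝔑_c ∧ [𝔘, 𝔈]` (with verbal subgroup `γ_{c+1}(F) [U, F]`) is not.
In Mathlib the `c`-th entry of the lower central series (counting from zero) of the
subgroup `⊤` is `γ_{c+1}(F)`. -/
theorem result : ∃ c k : ℕ, 1 ≤ c ∧ 1 ≤ k ∧ ∃ U : Subgroup F, IsVerbal U ∧
    (⊤ : Subgroup F).lowerCentralSeries c ≤ U ∧
    GeneratedByRank k ⁅U, (⊤ : Subgroup F)⁆ ∧
    ¬ GeneratedByRank k ((⊤ : Subgroup F).lowerCentralSeries c ⊔ ⁅U, (⊤ : Subgroup F)⁆) := by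
  refine ⟨4, 2, by norm_num, by norm_num, UU FN, UU_map, gam5_le, gen_PP, ?_⟩
  intro h
  exact w0_not ((h _).1 law_w0)

end Pool.Agent.Results.MP_215da1_al.RankTwoFails
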